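import Pool.Agent.H54.Sidon.Sharp

/-!
# Points on a line with distinct distances: `f(k, 1) ≤ (27 / 4 + o(1)) k²`

Proof. The `n` reals are replaced by integers with the same additive relations, and these by
elements of `ℤ / P`, `P` a large prime. A random affine map puts them on the circle of length
`p (p - 1)`, `p` a prime near `√(3 n / 4)`. Ruzsa's set of `p - 1` residues modulo `p (p - 1)` has
distinct differences, and so has every choice of one point in each of the left halves of the
corresponding unit intervals. The number of points in one of these halves has mean `μ ≈ 2 / 3`, and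
the mean number of pairs of points in it is `μ² / 2`, so at least `(μ - μ² / 2) (p - 1)` of them
contain a point, for some map. The prime number theorem gives `p`.
-/

namespace Pool.Agent.Results.MP_be54a8_co.UpperTwentySevenFourths

/-- `f(k, 1) ≤ (27 / 4 + o(1)) k ^ 2`: for every `ε > 0` and all large `k`, every finite set of at
least `(27 / 4 + ε) k ^ 2` reals has `k` points with pairwise distinct distances. -/
theorem result : ∀ ε : ℝ, 0 < ε → ∃ K : ℕ, ∀ k : ℕ, K ≤ k →
    ∀ S : Finset ℝ, (27 / 4 + ε) * (k : ℝ) ^ 2 ≤ S.card → ∃ T ⊆ S, T.card = k ∧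
      ∀ a ∈ T, ∀ b ∈ T, ∀ c ∈ T, ∀ d ∈ T, a ≠ b → c ≠ d →
        |a - b| = |c - d| → ((a = c ∧ b = d) ∨ (a = d ∧ b = c)) :=
  Pool.Agent.H54.Sidon.main_sharp

end Pool.Agent.Results.MP_be54a8_co.UpperTwentySevenFourths
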